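import Pool.Agent.V11276.Turan7

namespace Pool.Agent.Results.MP_d240f8_an.TuranOdd

open Polynomial Set

/-- `‖f‖ = max_{[-1,1]} |f|`. -/
noncomputable def supNorm (f : ℝ[X]) : ℝ := sSup ((fun x => |f.eval x|) '' Icc (-1:ℝ) 1)

/-- The real polynomials of degree exactly `n` all of whose `n` zeros (counted with multiplicity)
lie in `[-1,1]`. -/
def ZerosIn (n : ℕ) : Set ℝ[X] :=
  {P | P.natDegree = n ∧ Multiset.card P.roots = n ∧ P ≠ 0 ∧ ∀ r ∈ P.roots, r ∈ Icc (-1:ℝ) 1}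

/-- `Q_m(x) = (1-x)^m (1+x)^(m+1)`. -/
noncomputable def Qm (m : ℕ) : ℝ[X] := (1 - X) ^ m * (1 + X) ^ (m + 1)

/-- `C_n`, the infimum of `‖P''‖ / ‖P‖`. -/
noncomputable def Cn (n : ℕ) : ℝ :=
  sInf ((fun P : ℝ[X] => supNorm (derivative (derivative P)) / supNorm P) '' ZerosIn n)

open Pool.Agent.V11276.Turan in
lemma mem_Q (m : ℕ) : Qm m ∈ ZerosIn (2 * m + 1) := by
  have h : Qm m = C ((-1:ℝ) ^ m) * ((X - C (-1)) ^ (m + 1) * (X - C 1) ^ m) := Q_eq m
  have hm1 : ((-1:ℝ) ^ m) ≠ 0 := pow_ne_zero _ (by norm_num)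
  have hne1 : (X - C (-1) : ℝ[X]) ^ (m + 1) ≠ 0 := pow_ne_zero _ (X_sub_C_ne_zero _)
  have hne2 : (X - C 1 : ℝ[X]) ^ m ≠ 0 := pow_ne_zero _ (X_sub_C_ne_zero _)
  have hroots : (Qm m).roots = (m + 1) • {(-1:ℝ)} + m • {(1:ℝ)} := by
    rw [h, roots_C_mul _ hm1, roots_mul (mul_ne_zero hne1 hne2), roots_pow, roots_pow,
      roots_X_sub_C, roots_X_sub_C]
  refine ⟨?_, ?_, ?_, ?_⟩
  · rw [h, natDegree_C_mul hm1, natDegree_mul hne1 hne2, natDegree_pow, natDegree_pow,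
      natDegree_X_sub_C, natDegree_X_sub_C]
    omega
  · rw [hroots]; simp; omega
  · rw [h]; exact mul_ne_zero (by simpa using hm1) (mul_ne_zero hne1 hne2)
  · intro r hr
    rw [hroots, Multiset.mem_add] at hr
    rcases hr with hr | hr
    · have := Multiset.mem_of_mem_nsmul hr
      rw [Multiset.mem_singleton] at this
      subst this; constructor <;> norm_num
    · have := Multiset.mem_of_mem_nsmul hr
      rw [Multiset.mem_singleton] at this
      subst this; constructor <;> norm_num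

open Pool.Agent.V11276.Turan in
lemma pts (p : ℕ) (hp : 1 ≤ p) (n : ℝ) (hn : n = 2 * p + 5) :
    supNorm (Qm (p + 2)) = (1 - 1 / n) ^ (p + 2) * (1 + 1 / n) ^ (p + 3) ∧
    ∃ ξ : ℝ, 1 / n < ξ ∧ ξ < 1 / n + 4 / (n * (n - 1)) ∧
      (1 - (n - 4) * ξ) * (n * ξ ^ 2 - 2 * ξ - 1) + 2 * (1 - ξ ^ 2) * (n * ξ - 1) = 0 ∧
      supNorm (derivative (derivative (Qm (p + 2)))) =
        (n - 1) * (1 + ξ) ^ (p + 1) * (1 - ξ) ^ p * (1 + 2 * ξ - n * ξ ^ 2) := by
  obtain ⟨e, he⟩ : ∃ e : ℝ, e = 1 / n := ⟨_, rfl⟩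
  obtain ⟨y1, hy1, hy2, hall, hle, hge⟩ := maxpt p hp n e hn he
  have hp0 : (1:ℝ) ≤ p := by exact_mod_cast hp
  have hn7 : 7 ≤ n := by rw [hn]; linarith
  have hn0 : 0 < n := by linarith
  have he0 : 0 < e := by rw [he]; positivity
  have hne : n * e = 1 := by rw [he]; field_simp
  have he1 : e ≤ 1 / 7 := by nlinarith
  have hQe0 : 0 < (1 - e) ^ (p + 2) * (1 + e) ^ (p + 3) := by
    have : 0 < 1 - e := by linarith
    positivity
  have hy1b : y1 < 1 := by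
    have h3 : 4 / (n * (n - 1)) ≤ 4 / (7 * 6) :=
      div_le_div_of_nonneg_left (by norm_num) (by norm_num) (by nlinarith)
    linarith
  have hy1m : y1 ∈ Icc (-1:ℝ) 1 := ⟨by linarith, hy1b.le⟩
  have hF0 : 0 < - Fp p y1 := by
    refine lt_of_lt_of_le ?_ hge
    have : 0 < 1 - e ^ 2 := by nlinarith
    positivity
  have hcub : (1 - (n - 4) * y1) * (n * y1 ^ 2 - 2 * y1 - 1) + 2 * (1 - y1 ^ 2) * (n * y1 - 1) = 0 := by
    have hl : IsLocalMax (fun y => - Fp p y) y1 := by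
      filter_upwards [Icc_mem_nhds (by linarith : (-1:ℝ) < y1) hy1b] with y hy
      exact le_trans (neg_le_abs _) (hall y hy)
    obtain ⟨q, rfl⟩ : ∃ q, p = q + 1 := ⟨p - 1, by omega⟩
    have h1 := hl.deriv_eq_zero
    have h2 : HasDerivAt (fun y : ℝ => - Fp (q + 1) y)
        (-(((q + 1 : ℕ) * (1 - y1 ^ 2) ^ q * (-(2 * y1)) * (1 + y1) + (1 - y1 ^ 2) ^ (q + 1) * 1) *
          ((2 * ((q + 1 : ℕ):ℝ) + 5) * y1 ^ 2 - 2 * y1 - 1) + (1 - y1 ^ 2) ^ (q + 1) * (1 + y1) *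
          ((2 * ((q + 1 : ℕ):ℝ) + 5) * (2 * y1) - 2))) y1 := by
      have d1 : HasDerivAt (fun y : ℝ => 1 - y ^ 2) (-(2 * y1)) y1 := by
        simpa using (hasDerivAt_pow 2 y1).const_sub 1
      have d2 : HasDerivAt (fun y : ℝ => (1 - y ^ 2) ^ (q + 1))
          ((q + 1 : ℕ) * (1 - y1 ^ 2) ^ q * (-(2 * y1))) y1 := by
        have := d1.fun_pow (q + 1)
        simpa using this
      have d3 : HasDerivAt (fun y : ℝ => 1 + y) 1 y1 := by
        simpa using (hasDerivAt_id y1).const_add 1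
      have d4 : HasDerivAt (fun y : ℝ => (2 * ((q + 1 : ℕ):ℝ) + 5) * y ^ 2 - 2 * y - 1)
          ((2 * ((q + 1 : ℕ):ℝ) + 5) * (2 * y1) - 2) y1 := by
        have := (((hasDerivAt_pow 2 y1).const_mul (2 * ((q + 1 : ℕ):ℝ) + 5)).sub
          ((hasDerivAt_id y1).const_mul 2)).sub_const 1
        simpa using this
      exact ((d2.mul d3).mul d4).neg
    rw [h2.deriv] at h1
    have h3 : (1 - y1 ^ 2) ^ q * (1 + y1) *
        ((1 - (n - 4) * y1) * (n * y1 ^ 2 - 2 * y1 - 1) + 2 * (1 - y1 ^ 2) * (n * y1 - 1)) = 0 := by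
      rw [hn]
      push_cast at h1 ⊢
      rw [pow_succ] at h1
      linear_combination (-1) * h1
    have h4 : (1 - y1 ^ 2) ^ q * (1 + y1) ≠ 0 := by
      have : 0 < 1 - y1 ^ 2 := by nlinarith
      have : 0 < 1 + y1 := by linarith
      positivity
    exact (mul_eq_zero.mp h3).resolve_left h4
  refine ⟨?_, y1, ?_, ?_, hcub, ?_⟩
  · have : supNorm (Qm (p + 2)) = (1 - e) ^ (p + 2) * (1 + e) ^ (p + 3) := by
      apply nrm_eq _ _ e ⟨by linarith, by linarith⟩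
      · show |(Q (p + 2)).eval e| = _
        rw [Q_eval_e]; exact abs_of_pos hQe0
      · intro y hy; exact Qmax p n e hn he y hy.1 hy.2
    rw [this, he]
  · rw [← he]
    rcases eq_or_lt_of_le hy1 with h | h
    · exfalso
      rw [← h] at hcub
      have h5 : n * e - 1 = 0 := by linarith
      rw [h5, mul_zero, add_zero] at hcub
      have h6 : (1 - (n - 4) * e) = 4 * e := by linarith
      have h7 : n * e ^ 2 - 2 * e - 1 = -(1 + e) := by nlinarith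
      rw [h6, h7] at hcub
      nlinarith
    · exact h
  · rw [← he]; exact hy2
  · have h8 : supNorm (derivative (derivative (Qm (p + 2)))) = 2 * ((p:ℝ) + 2) * (- Fp p y1) := by
      apply nrm_eq _ _ y1 hy1m
      · show |(derivative (derivative (Q (p + 2)))).eval y1| = _
        rw [Qdd, show 2 * ((p:ℝ) + 2) * Fp p y1 = -(2 * ((p:ℝ) + 2) * (- Fp p y1)) by ring, abs_neg]
        exact abs_of_pos (by positivity)
      · intro y hy
        show |(derivative (derivative (Q (p + 2)))).eval y| ≤ _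
        rw [Qdd, abs_mul, abs_of_pos (by positivity : (0:ℝ) < 2 * ((p:ℝ) + 2))]
        exact mul_le_mul_of_nonneg_left (hall y hy) (by positivity)
    rw [h8]
    unfold Fp
    have e7 : (1 - y1 ^ 2) ^ p = (1 - y1) ^ p * (1 + y1) ^ p := by rw [← mul_pow]; congr 1; ring
    rw [e7, hn]
    ring

open Pool.Agent.V11276.Turan in
lemma nrm_comp_neg (f : ℝ[X]) : supNorm (f.comp (-X)) = supNorm f := by
  unfold supNorm
  congr 1
  ext v
  constructor
  · rintro ⟨x, hx, rfl⟩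
    exact ⟨-x, ⟨by linarith [hx.2], by linarith [hx.1]⟩, by simp [eval_comp]⟩
  · rintro ⟨x, hx, rfl⟩
    exact ⟨-x, ⟨by linarith [hx.2], by linarith [hx.1]⟩, by simp [eval_comp]⟩

open Pool.Agent.V11276.Turan in
lemma nrm_C_mul (c : ℝ) (f : ℝ[X]) : supNorm (C c * f) = |c| * supNorm f := by
  obtain ⟨x, hx, h⟩ := nrm_attained f
  apply nrm_eq _ _ x hx
  · rw [eval_mul, eval_C, abs_mul, h]; rfl
  · intro y hy
    rw [eval_mul, eval_C, abs_mul]
    exact mul_le_mul_of_nonneg_left (le_nrm f hy) (abs_nonneg c)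

open Pool.Agent.V11276.Turan in
/-- **Answer to Q1.** For every `m ≥ 3` and `n = 2m+1`: `Q_m = (1-x)^m (1+x)^(m+1)` is extremal,
`C_n = ‖Q_m''‖/‖Q_m‖`; explicitly
`C_n = (n-1) (1+ξ)^(m-1) (1-ξ)^(m-2) (1+2ξ-nξ²) / ((1-1/n)^m (1+1/n)^(m+1))` with `ξ` a root of the
cubic `(1-(n-4)ξ)(nξ²-2ξ-1) + 2(1-ξ²)(nξ-1)` in `(1/n, 1/n + 4/(n(n-1)))`; and the extremal polynomials
are exactly the `c Q_m(x)` and `c Q_m(-x)` with `c ≠ 0`. -/
theorem result (m : ℕ) (hm : 3 ≤ m) :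
    Qm m ∈ ZerosIn (2 * m + 1) ∧
    Cn (2 * m + 1) = supNorm (derivative (derivative (Qm m))) / supNorm (Qm m) ∧
    (∃ ξ : ℝ, 1 / (2 * (m:ℝ) + 1) < ξ ∧
      ξ < 1 / (2 * (m:ℝ) + 1) + 4 / ((2 * (m:ℝ) + 1) * (2 * (m:ℝ))) ∧
      (1 - (2 * (m:ℝ) - 3) * ξ) * ((2 * (m:ℝ) + 1) * ξ ^ 2 - 2 * ξ - 1)
        + 2 * (1 - ξ ^ 2) * ((2 * (m:ℝ) + 1) * ξ - 1) = 0 ∧
      Cn (2 * m + 1) = (2 * m * (1 + ξ) ^ (m - 1) * (1 - ξ) ^ (m - 2) *
          (1 + 2 * ξ - (2 * (m:ℝ) + 1) * ξ ^ 2)) /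
        ((1 - 1 / (2 * (m:ℝ) + 1)) ^ m * (1 + 1 / (2 * (m:ℝ) + 1)) ^ (m + 1))) ∧
    ∀ P ∈ ZerosIn (2 * m + 1),
      Cn (2 * m + 1) * supNorm P ≤ supNorm (derivative (derivative P)) ∧
      (supNorm (derivative (derivative P)) = Cn (2 * m + 1) * supNorm P ↔
        ∃ c : ℝ, c ≠ 0 ∧ (P = C c * Qm m ∨ P = C c * (Qm m).comp (-X))) := by
  obtain ⟨p, rfl⟩ : ∃ p, m = p + 2 := ⟨m - 2, by omega⟩
  have hp : 1 ≤ p := by omega
  have hQ := mem_Q (p + 2)
  have hQpos : 0 < supNorm (Qm (p + 2)) := nrm_pos _ hQ.2.2.1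
  have hmain : ∀ P ∈ ZerosIn (2 * (p + 2) + 1),
      supNorm (derivative (derivative (Qm (p + 2)))) * supNorm P ≤
        supNorm (derivative (derivative P)) * supNorm (Qm (p + 2)) ∧
      (supNorm (derivative (derivative P)) * supNorm (Qm (p + 2)) =
        supNorm (derivative (derivative (Qm (p + 2)))) * supNorm P →
        ∃ c : ℝ, c ≠ 0 ∧ (P = C c * Qm (p + 2) ∨ P = C c * (Qm (p + 2)).comp (-X))) :=
    fun P hP => main_ineq p hp P hP
  have hCn : Cn (2 * (p + 2) + 1) =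
      supNorm (derivative (derivative (Qm (p + 2)))) / supNorm (Qm (p + 2)) := by
    apply IsLeast.csInf_eq
    refine ⟨⟨_, hQ, rfl⟩, ?_⟩
    rintro _ ⟨P, hP, rfl⟩
    have hPpos : 0 < supNorm P := nrm_pos _ hP.2.2.1
    have := (hmain P hP).1
    show _ ≤ supNorm (derivative (derivative P)) / supNorm P
    rw [div_le_div_iff₀ hQpos hPpos]
    exact this
  refine ⟨hQ, hCn, ?_, ?_⟩
  · obtain ⟨h1, ξ, h2, h3, h4, h5⟩ := pts p hp (2 * ((p:ℝ) + 2) + 1) (by ring)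
    refine ⟨ξ, ?_, ?_, ?_, ?_⟩
    · push_cast; exact h2
    · push_cast
      rw [show (2 * ((p:ℝ) + 2)) = (2 * ((p:ℝ) + 2) + 1) - 1 by ring] at h3 ⊢
      convert h3 using 3 <;> ring
    · push_cast
      rw [← h4]; ring
    · rw [hCn, h5, h1]
      push_cast
      rw [show (2 * ((p:ℝ) + 2) + 1 - 1) = 2 * ((p:ℝ) + 2) by ring]
  · intro P hP
    obtain ⟨hA, hB⟩ := hmain P hP
    refine ⟨?_, ?_, ?_⟩
    · rw [hCn, div_mul_eq_mul_div, div_le_iff₀ hQpos]; exact hA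
    · intro h
      apply hB
      rw [h, hCn]; field_simp
    · rintro ⟨c, hc, rfl | rfl⟩
      · have e : derivative (derivative (C c * Qm (p + 2))) =
            C c * derivative (derivative (Qm (p + 2))) := by simp
        rw [e, nrm_C_mul, nrm_C_mul, hCn]; field_simp
      · have e : derivative (derivative (C c * (Qm (p + 2)).comp (-X))) =
            C c * (derivative (derivative (Qm (p + 2)))).comp (-X) := by
          simp [derivative_comp]
        rw [e, nrm_C_mul, nrm_C_mul, nrm_comp_neg, nrm_comp_neg, hCn]; field_simp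

end Pool.Agent.Results.MP_d240f8_an.TuranOdd
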